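import Pool.Agent.R444.PR.Rigid

/-!
# A non-exponential function with the rigidity property (R)

`L(s) = 1/4 + (3/4) e^{-s}` belongs to the class `𝓛`, is not of the form `e^{-cs}`, and has
property (R).

Let `f₁, f₂` be characteristic functions of the laws `μ₁, μ₂` with values in `I_L` and
`Φ_L(f₁, f₂) = L(a ξ²)`. Then `h_j = (4 f_j - 1) / 3` satisfy `h₁ h₂ = e^{-aξ²}`, which by the
uniqueness theorem says `16 μ₁ * μ₂ + δ₀ = 9 γ + 4 μ₁ + 4 μ₂` with `γ = N(0, 2a)`. The laws `μ_j` are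
symmetric, so `P(|X₁ + X₂| > R) ≥ (T₁ + T₂ - T₁ T₂) / 2` for the tails `T_j = P(|X_j| > R)`, and it
follows that `T₁ + T₂ ≤ 3 γ(|x| > R)` for large `R`. Hence `h_j` extends to an entire function of
order at most 2, without zeros and even, so `h_j = e^{-β_j ξ²}`.
-/

set_option autoImplicit false

open MeasureTheory ProbabilityTheory

namespace Pool.Agent.Results.MP_c7609e_pr.NonExponentialRigid

/-- The class `𝓛`: completely monotone functions `[0, ∞) → (0, 1]` (continuous on `[0, ∞)`, smooth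
on `(0, ∞)` with derivatives of alternating signs) that are injective and satisfy `L 0 = 1`. -/
structure InL (L : ℝ → ℝ) : Prop where
  cont : ContinuousOn L (Set.Ici 0)
  smooth : ContDiffOn ℝ (⊤ : ℕ∞) L (Set.Ioi 0)
  sign : ∀ (n : ℕ) (s : ℝ), 0 < s → 0 ≤ (-1) ^ n * iteratedDeriv n L s
  pos : ∀ s, 0 ≤ s → 0 < L s ∧ L s ≤ 1
  inj : Set.InjOn L (Set.Ici 0)
  zero : L 0 = 1

/-- `Φ_L(x, y) = L(L⁻¹(x) + L⁻¹(y))`, where `L⁻¹` is the inverse of `L` on `[0, ∞)`. -/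
noncomputable def Phi (L : ℝ → ℝ) (x y : ℝ) : ℝ :=
  L (Function.invFunOn L (Set.Ici 0) x + Function.invFunOn L (Set.Ici 0) y)

/-- The class `𝒞` of exponents: `ψ(ξ) = σ² ξ² / 2 + ∫ (1 - cos(tξ)) ν(dt)` for a measure `ν` on
`(0, ∞)` with `∫ min(1, t²) ν(dt) < ∞`. -/
def InC (ψ : ℝ → ℝ) : Prop :=
  ∃ (σ : ℝ) (ν : Measure ℝ), ν (Set.Iic 0) = 0 ∧ Integrable (fun t => min 1 (t ^ 2)) ν ∧
    ∀ ξ, ψ ξ = 1 / 2 * σ ^ 2 * ξ ^ 2 + ∫ t, (1 - Real.cos (t * ξ)) ∂ν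

/-- Property (R). -/
def PropR (L : ℝ → ℝ) : Prop :=
  ∀ a : ℝ, 0 < a → ∀ (μ₁ μ₂ : Measure ℝ), IsProbabilityMeasure μ₁ → IsProbabilityMeasure μ₂ →
    ∀ f₁ f₂ : ℝ → ℝ, (∀ ξ, charFun μ₁ ξ = (f₁ ξ : ℂ)) → (∀ ξ, charFun μ₂ ξ = (f₂ ξ : ℂ)) →
      (∀ ξ, f₁ ξ ∈ L '' Set.Ici 0) → (∀ ξ, f₂ ξ ∈ L '' Set.Ici 0) →
      (∀ ξ, Phi L (f₁ ξ) (f₂ ξ) = L (a * ξ ^ 2)) →
      ∃ η₁ η₂ : ℝ → ℝ, InC η₁ ∧ InC η₂ ∧ (∀ ξ, f₁ ξ = L (η₁ ξ)) ∧ (∀ ξ, f₂ ξ = L (η₂ ξ))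

/-- The function. -/
noncomputable def L₀ (s : ℝ) : ℝ := 1 / 4 + 3 / 4 * Real.exp (-s)

lemma deriv_L₀ (n : ℕ) : iteratedDeriv (n + 1) L₀ =
    fun s => (-1) ^ (n + 1) * (3 / 4 * Real.exp (-s)) := by
  induction n with
  | zero =>
    rw [zero_add, iteratedDeriv_one]
    funext s
    have h1 : HasDerivAt L₀ (3 / 4 * (Real.exp (-s) * (-1))) s :=
      (((hasDerivAt_neg s).exp).const_mul (3 / 4)).const_add (1 / 4)
    rw [h1.deriv]
    ring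
  | succ n ih =>
    rw [iteratedDeriv_succ, ih]
    funext s
    have h1 : HasDerivAt (fun s : ℝ => (-1) ^ (n + 1) * (3 / 4 * Real.exp (-s)))
        ((-1) ^ (n + 1) * (3 / 4 * (Real.exp (-s) * (-1)))) s :=
      (((hasDerivAt_neg s).exp).const_mul (3 / 4)).const_mul _
    rw [h1.deriv]
    ring

lemma inj_L₀ {s t : ℝ} (h : L₀ s = L₀ t) : s = t := by
  unfold L₀ at h
  have h1 : Real.exp (-s) = Real.exp (-t) := by linarith
  have := Real.exp_injective h1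
  linarith

lemma inL_L₀ : InL L₀ where
  cont := by unfold L₀; fun_prop
  smooth := by
    have : ContDiff ℝ (⊤ : ℕ∞) L₀ := by unfold L₀; fun_prop
    exact this.contDiffOn
  sign := by
    intro n s _
    rcases n with _ | n
    · rw [iteratedDeriv_zero, pow_zero, one_mul]
      unfold L₀
      positivity
    · rw [deriv_L₀, ← mul_assoc, ← pow_add, ← two_mul, pow_mul]
      norm_num
      positivity
  pos := by
    intro s hs
    unfold L₀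
    refine ⟨by positivity, ?_⟩
    have : Real.exp (-s) ≤ 1 := by rw [Real.exp_le_one_iff]; linarith
    linarith
  inj := fun s _ t _ h => inj_L₀ h
  zero := by unfold L₀; norm_num

lemma inC_sq {β : ℝ} (hβ : 0 ≤ β) : InC (fun ξ => β * ξ ^ 2) := by
  refine ⟨√(2 * β), 0, by simp, integrable_zero_measure, fun ξ => ?_⟩
  rw [integral_zero_measure, Real.sq_sqrt (by positivity)]
  ring

lemma propR_L₀ : PropR L₀ := by
  intro a ha μ₁ μ₂ _ _ f₁ f₂ h₁ h₂ hI₁ hI₂ hΦ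
  have hinv : ∀ x, x ∈ L₀ '' Set.Ici 0 →
      0 ≤ Function.invFunOn L₀ (Set.Ici 0) x ∧ L₀ (Function.invFunOn L₀ (Set.Ici 0) x) = x := by
    intro x hx
    exact ⟨Function.invFunOn_mem hx, Function.invFunOn_eq hx⟩
  have hprod : ∀ ξ, (4 * f₁ ξ - 1) / 3 * ((4 * f₂ ξ - 1) / 3) = Real.exp (-(a * ξ ^ 2)) := by
    intro ξ
    obtain ⟨-, e1⟩ := hinv _ (hI₁ ξ)
    obtain ⟨-, e2⟩ := hinv _ (hI₂ ξ)
    have h3 := hΦ ξ
    unfold Phi at h3
    have h4 := inj_L₀ h3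
    set s := Function.invFunOn L₀ (Set.Ici 0) (f₁ ξ)
    set t := Function.invFunOn L₀ (Set.Ici 0) (f₂ ξ)
    have e1' : (4 * f₁ ξ - 1) / 3 = Real.exp (-s) := by rw [← e1]; unfold L₀; ring
    have e2' : (4 * f₂ ξ - 1) / 3 = Real.exp (-t) := by rw [← e2]; unfold L₀; ring
    rw [e1', e2', ← Real.exp_add]
    congr 1
    linarith
  have hle : ∀ x, x ∈ L₀ '' Set.Ici 0 → x ≤ 1 := by
    rintro x ⟨s, hs, rfl⟩
    exact (inL_L₀.pos s hs).2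
  obtain ⟨⟨β₁, hβ₁, e₁⟩, ⟨β₂, hβ₂, e₂⟩⟩ := Pool.Agent.R444.PR.rigid μ₁ μ₂ f₁ f₂ h₁ h₂ ha hprod
    (fun ξ => hle _ (hI₁ ξ)) (fun ξ => hle _ (hI₂ ξ))
  refine ⟨fun ξ => β₁ * ξ ^ 2, fun ξ => β₂ * ξ ^ 2, inC_sq hβ₁, inC_sq hβ₂, fun ξ => ?_,
    fun ξ => ?_⟩
  · unfold L₀
    rw [← e₁ ξ]
    ring
  · unfold L₀
    rw [← e₂ ξ]
    ring

/-- **Negative answer to Q1.** There is a function in the class `𝓛`, not of the form `e^{-cs}`, which
has property (R); for example `L(s) = 1/4 + (3/4) e^{-s}`. -/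
theorem result : ∃ L : ℝ → ℝ, (∀ s, L s = 1 / 4 + 3 / 4 * Real.exp (-s)) ∧ InL L ∧
    (¬ ∃ c : ℝ, 0 < c ∧ ∀ s, 0 ≤ s → L s = Real.exp (-(c * s))) ∧ PropR L := by
  refine ⟨L₀, fun s => rfl, inL_L₀, ?_, propR_L₀⟩
  rintro ⟨c, hc, h⟩
  have h1 := h (2 / c) (by positivity)
  have h2 : Real.exp (-(c * (2 / c))) = Real.exp (-2) := by
    congr 1
    field_simp
  rw [h2] at h1
  unfold L₀ at h1
  have h3 : 0 < Real.exp (-(2 / c)) := Real.exp_pos _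
  have h4 : Real.exp (-2) < 1 / 4 := by
    rw [Real.exp_neg, inv_lt_comm₀ (Real.exp_pos _) (by norm_num)]
    have h5 : (2.7182818283 : ℝ) < Real.exp 1 := Real.exp_one_gt_d9
    have h6 : Real.exp 2 = Real.exp 1 * Real.exp 1 := by
      rw [← Real.exp_add]
      norm_num
    rw [h6]
    nlinarith
  linarith

end Pool.Agent.Results.MP_c7609e_pr.NonExponentialRigid
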